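import Pool.Agent.MWI.StmtsE

/-!
# Row IM3 of squad MWI: counting
-/

namespace Pool.Agent.MWI.H10

open Pool.Agent.Helper14_MV Pool.Agent.Helper2_MV Pool.Agent.MWF Pool.Agent.MWI

/-- a letter `z` -/
def zf (c : ℕ) : Bool := decide (c % 3 = 2)

theorem btw_mid3 {A G B : List ℕ} {x z : ℕ} {M : List ℕ} (hM : M = A ++ x :: (G ++ x :: B))
    (hc : M.count x = 2) (hb : MVD.Btw x z M) : z ∈ G := by
  obtain ⟨a, b, c, h, hz⟩ := hb
  have h1 : M.count x = a.count x + (b.count x + c.count x + 1) + 1 := by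
    rw [h]; simp [List.count_append]; omega
  have h2 : M.count x = A.count x + (G.count x + B.count x + 1) + 1 := by
    rw [hM]; simp [List.count_append]; omega
  have ha : x ∉ a := List.count_eq_zero.mp (by omega)
  have hb' : x ∉ b := List.count_eq_zero.mp (by omega)
  have hA : x ∉ A := List.count_eq_zero.mp (by omega)
  have hG : x ∉ G := List.count_eq_zero.mp (by omega)
  have hB : x ∉ B := List.count_eq_zero.mp (by omega)
  have hcc : x ∉ c := List.count_eq_zero.mp (by omega)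
  have key : ∀ (l1 l2 m1 m2 : List ℕ), x ∉ l1 → x ∉ l2 → l1 ++ x :: m1 = l2 ++ x :: m2 →
      l1 = l2 ∧ m1 = m2 := by
    intro l1
    induction l1 with
    | nil =>
      intro l2 m1 m2 _ h2 he
      cases l2 with
      | nil => simp at he; exact ⟨rfl, he⟩
      | cons y l2 => simp at he; simp [he.1] at h2
    | cons y l1 ih =>
      intro l2 m1 m2 h1 h2 he
      cases l2 with
      | nil => simp at he; simp [he.1] at h1
      | cons y2 l2 =>
        simp at he
        simp only [List.mem_cons, not_or] at h1 h2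
        obtain ⟨r1, r2⟩ := ih l2 m1 m2 h1.2 h2.2 he.2
        exact ⟨by rw [he.1, r1], r2⟩
  rw [h] at hM
  obtain ⟨-, h3⟩ := key _ _ _ _ ha hA hM
  obtain ⟨h4, -⟩ := key _ _ _ _ hb' hG h3
  rw [← h4]; exact hz

theorem count_lem (f : ℕ → List ℕ) (U : List ℕ)
    (h0 : ∀ u ∈ U, u % 3 = 0 → (f u).filter zf = [])
    (h1 : ∀ u ∈ U, u % 3 ≠ 0 → ((f u).filter zf).length ≤ 1) :
    ((U.flatMap f).filter zf).length ≤ (U.filter nz).length ∧
    ((U.filter nz).length ≤ ((U.flatMap f).filter zf).length →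
      ∀ u ∈ U, u % 3 ≠ 0 → ((f u).filter zf).length = 1) := by
  induction U with
  | nil => simp
  | cons x U ih =>
    obtain ⟨i1, i2⟩ := ih (fun u hu => h0 u (List.mem_cons_of_mem _ hu))
      (fun u hu => h1 u (List.mem_cons_of_mem _ hu))
    have hx0 := h0 x List.mem_cons_self
    have hx1 := h1 x List.mem_cons_self
    rw [List.flatMap_cons, List.filter_append, List.length_append]
    by_cases hx : x % 3 = 0
    · have e1 : (x :: U).filter nz = U.filter nz := by
        rw [List.filter_cons_of_neg]; simp [nz, hx]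
      rw [e1, hx0 hx, List.length_nil, Nat.zero_add]
      refine ⟨i1, fun hle u hu hun => ?_⟩
      rcases List.mem_cons.mp hu with rfl | hu
      · exact absurd hx hun
      · exact i2 hle u hu hun
    · have e1 : (x :: U).filter nz = x :: U.filter nz := by
        rw [List.filter_cons_of_pos]; simp [nz, hx]
      rw [e1, List.length_cons]
      have := hx1 hx
      refine ⟨by omega, fun hle u hu hun => ?_⟩
      rcases List.mem_cons.mp hu with rfl | hu
      · omega
      · exact i2 (by omega) u hu hun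

theorem nm_facts (e : Bool) : ∀ i < 3, ∃ r < 3, nm e i = 3 * r := by
  intro i hi
  interval_cases i <;> cases e <;>
    first
      | exact ⟨0, by norm_num, rfl⟩
      | exact ⟨1, by norm_num, rfl⟩
      | exact ⟨2, by norm_num, rfl⟩

theorem nm_surj (e : Bool) : ∀ r < 3, ∃ i < 3, 3 * r = nm e i := by
  intro r hr
  interval_cases r <;> cases e <;>
    first
      | exact ⟨0, by norm_num, rfl⟩
      | exact ⟨1, by norm_num, rfl⟩
      | exact ⟨2, by norm_num, rfl⟩

theorem cv_four (s : Bool) (r : ℕ) (hr : r < 3) :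
    ((List.range 7).filter (fun k => cv s r k)).length = 4 := by
  interval_cases r <;> cases s <;> decide

theorem mem_ci {m k E : ℕ} : E ∈ ci m k ↔ ∃ i < m, E = 7 * i + k := by
  simp only [ci, List.mem_map, List.mem_range]
  exact ⟨fun ⟨i, h, e⟩ => ⟨i, h, e.symm⟩, fun ⟨i, h, e⟩ => ⟨i, h, e.symm⟩⟩

theorem sum_const (L : List ℕ) (g : ℕ → List ℕ) (m : ℕ) (h : ∀ k ∈ L, (g k).length = m) :
    (L.flatMap g).length = L.length * m := by
  induction L with
  | nil => simp
  | cons x L ih =>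
    rw [List.flatMap_cons, List.length_append, h x List.mem_cons_self,
      ih (fun k hk => h k (List.mem_cons_of_mem _ hk)), List.length_cons, Nat.succ_mul]
    omega

theorem fct_count {P Q : List ℕ} {m : ℕ} {s e : Bool} {w M Y : List ℕ} (F : Fct P Q m s e w M Y)
    {j : ℕ} (hj : j < 3) : M.count (3 * j) = 2 := by
  rw [F.pM.count_eq]
  have hz : (zz (idx m)).count (3 * j) = 0 := by
    rw [List.count_eq_zero]
    intro hc
    simp only [zz, List.mem_map] at hc
    obtain ⟨x, -, hx⟩ := hc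
    omega
  interval_cases j <;> simp at hz ⊢ <;> omega

theorem role (hSEP : SepStmt) (hMMF : MmfStmt) (hCVF : CvfStmt) (hPJS : PjsStmt)
    (P Q : List ℕ) (m : ℕ) (s' e' : Bool) (w M Y : List ℕ) (hm : 1 ≤ m)
    (F : Fct P Q m s' e' w M Y) (s e : Bool) (f : ℕ → List ℕ) (a c : List ℕ)
    (hM : M = a ++ ((MM m s (nm e 0) (nm e 1) (nm e 2)).flatMap f ++ c))
    (hn : ∀ i < 3, f (3 * i) = [] ∨ ∃ j < 3, f (3 * i) = [3 * j])
    (hz : ∀ E < 7 * m, ∀ E', 3 * E' + 2 ∈ f (3 * E + 2) → f (3 * E + 2) = [3 * E' + 2])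
    (i : ℕ) (hi : i < 3) (hf : f (nm e i) ≠ []) :
    (∀ i' < 3, f (nm e i') ≠ []) ∧
      ∀ k < 7, cv s i k = true → ∀ E ∈ ci m k, ∃ E', f (3 * E + 2) = [3 * E' + 2] := by
  obtain ⟨hp, hfil, hnm, hU⟩ := hMMF m s e
  obtain ⟨U0, U, U1, hMM, hnU, hnU0, hnU1, hcnt, hlen, hcvU, hUcv⟩ := hU i hi
  obtain ⟨r, hr, hnr⟩ := nm_facts e i hi
  have hfj : ∃ j < 3, f (nm e i) = [3 * j] := by
    rw [hnr] at hf ⊢
    rcases hn r hr with h | h
    · exact absurd h hf
    · exact h
  obtain ⟨j, hj, hfj⟩ := hfj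
  have hM2 : M = (a ++ U0.flatMap f) ++ 3 * j ::
      (U.flatMap f ++ 3 * j :: (U1.flatMap f ++ c)) := by
    rw [hM, hMM]
    simp [List.flatMap_append, List.flatMap_cons, hfj]
  have hc2 := fct_count F hj
  -- letters of the main word
  have hmem : ∀ u ∈ U, (∃ r < 3, u = nm e r) ∨ ∃ E < 7 * m, u = 3 * E + 2 := by
    intro u hu
    have hu1 : u ∈ MM m s (nm e 0) (nm e 1) (nm e 2) := by
      rw [hMM]; simp [hu]
    rw [hp.mem_iff] at hu1
    simp only [List.mem_cons] at hu1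
    have h3 : u = 0 ∨ u = 3 ∨ u = 6 ∨ u ∈ zz (idx m) := by tauto
    rcases h3 with h | h | h | h
    · left
      obtain ⟨i1, h1, h2⟩ := nm_surj e 0 (by norm_num)
      exact ⟨i1, h1, by rw [h, ← h2]⟩
    · left
      obtain ⟨i1, h1, h2⟩ := nm_surj e 1 (by norm_num)
      exact ⟨i1, h1, by rw [h, ← h2]⟩
    · left
      obtain ⟨i1, h1, h2⟩ := nm_surj e 2 (by norm_num)
      exact ⟨i1, h1, by rw [h, ← h2]⟩
    · right
      simp only [zz, List.mem_map] at h
      obtain ⟨E, hE, rfl⟩ := h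
      exact ⟨E, ((hPJS P Q m 0 0 (by norm_num)).2.2.2.2.2.2 E).mp hE, rfl⟩
  -- lower bound
  set G := U.flatMap f with hG
  have hrl := (hnm j hj).2.1
  set L := ((List.range 7).filter (fun k => cv s' (rl e' j) k)).flatMap (ci m) with hL
  have hLlen : (zz L).length = 4 * m := by
    rw [zz, List.length_map, hL, sum_const _ _ m (by intro k _; simp [ci])]
    have hr' : rl e' j < 3 := by
      have := (hMMF m s' e').2.2.1 j hj
      exact this.2.1
    rw [cv_four s' _ hr']
  have hLnd : (zz L).Nodup := by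
    have h1 : (idx m).Nodup := (hPJS P Q m 0 0 (by norm_num)).2.2.2.2.2.1
    have h2 : L.Sublist (idx m) := by
      rw [hL, idx]
      exact List.Sublist.flatMap List.filter_sublist _
    have h3 := h1.sublist h2
    rw [zz]
    exact h3.map (fun x y hxy => by simpa using hxy)
  have hLsub : zz L ⊆ G.filter zf := by
    intro x hx
    simp only [zz, List.mem_map] at hx
    obtain ⟨E, hE, rfl⟩ := hx
    rw [hL] at hE
    simp only [List.mem_flatMap, List.mem_filter, List.mem_range] at hE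
    obtain ⟨k, ⟨hk, hcv⟩, hE⟩ := hE
    rw [mem_ci] at hE
    obtain ⟨i0, hi0, rfl⟩ := hE
    rw [List.mem_filter]
    refine ⟨btw_mid3 hM2 hc2 (F.cv j hj k hk hcv i0 hi0), ?_⟩
    simp [zf]
  have hge : 4 * m ≤ (G.filter zf).length := by
    rw [← hLlen]
    exact (hLnd.subperm hLsub).length_le
  -- the images
  have hc0 : ∀ u ∈ U, u % 3 = 0 → (f u).filter zf = [] := by
    intro u hu hu3
    rcases hmem u hu with ⟨r1, hr1, rfl⟩ | ⟨E, hE, rfl⟩
    · obtain ⟨r2, hr2, he2⟩ := nm_facts e r1 hr1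
      rw [he2]
      rcases hn r2 hr2 with h | ⟨j1, hj1, h⟩
      · rw [h]; rfl
      · rw [h]; simp [zf]
    · omega
  have hc1 : ∀ E < 7 * m, 1 ≤ ((f (3 * E + 2)).filter zf).length →
      ∃ E', f (3 * E + 2) = [3 * E' + 2] := by
    intro E hE h1
    obtain ⟨x, hx⟩ := List.exists_mem_of_length_pos h1
    rw [List.mem_filter] at hx
    have hx3 : x % 3 = 2 := by simpa [zf] using hx.2
    obtain ⟨E', rfl⟩ : ∃ E', x = 3 * E' + 2 := ⟨x / 3, by omega⟩
    exact ⟨E', hz E hE E' hx.1⟩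
  have hc1' : ∀ u ∈ U, u % 3 ≠ 0 → ((f u).filter zf).length ≤ 1 := by
    intro u hu hu3
    rcases hmem u hu with ⟨r1, hr1, rfl⟩ | ⟨E, hE, rfl⟩
    · obtain ⟨r2, hr2, he2⟩ := nm_facts e r1 hr1
      omega
    · by_contra hcon
      obtain ⟨E', hE'⟩ := hc1 E hE (by omega)
      rw [hE'] at hcon
      apply hcon
      exact (List.length_filter_le _ _)
  obtain ⟨-, hall⟩ := count_lem f U hc0 hc1'
  rw [← hG] at hall
  have hall' := hall (by rw [hlen]; exact hge)
  have hallE : ∀ E, 3 * E + 2 ∈ U → ∃ E', f (3 * E + 2) = [3 * E' + 2] := by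
    intro E hE
    rcases hmem _ hE with ⟨r1, hr1, he1⟩ | ⟨E1, hE1, he1⟩
    · obtain ⟨r2, hr2, he2⟩ := nm_facts e r1 hr1
      omega
    · have : E1 = E := by omega
      subst this
      exact hc1 E1 hE1 (by rw [hall' _ hE (by omega)])
  refine ⟨?_, fun k hk hcv E hE => hallE E (hcvU k hk hcv E hE)⟩
  -- the names
  intro i' hi' hfi'
  have hii : i' ≠ i := by rintro rfl; exact hf hfi'
  have hSep := (hSEP P Q m s' e' w M Y hm F).2
  have key : ∀ j' < 3, j' ≠ j → ∃ i2 < 3, i2 ≠ i ∧ i2 ≠ i' ∧ f (nm e i2) = [3 * j'] := by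
    intro j' hj' hjj
    have h1 := hSep j hj j' hj' (Ne.symm hjj) _ _ _ hM2
    have h2 : 3 * j' ∈ G := List.count_pos_iff.mp (by omega)
    rw [hG, List.mem_flatMap] at h2
    obtain ⟨u, hu, huf⟩ := h2
    rcases hmem u hu with ⟨r1, hr1, rfl⟩ | ⟨E, hE, rfl⟩
    · refine ⟨r1, hr1, ?_, ?_, ?_⟩
      · rintro rfl; exact hnU hu
      · rintro rfl; rw [hfi'] at huf; simp at huf
      · obtain ⟨r2, hr2, he2⟩ := nm_facts e r1 hr1
        rw [he2] at huf ⊢
        rcases hn r2 hr2 with h | ⟨j1, hj1, h⟩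
        · rw [h] at huf; simp at huf
        · rw [h] at huf ⊢
          simp only [List.mem_singleton] at huf
          rw [huf]
    · obtain ⟨E', hE'⟩ := hallE E hu
      rw [hE', List.mem_singleton] at huf
      omega
  have hex : ∃ j1 < 3, ∃ j2 < 3, j1 ≠ j ∧ j2 ≠ j ∧ j1 ≠ j2 := by
    interval_cases j
    · exact ⟨1, by norm_num, 2, by norm_num, by norm_num, by norm_num, by norm_num⟩
    · exact ⟨0, by norm_num, 2, by norm_num, by norm_num, by norm_num, by norm_num⟩
    · exact ⟨0, by norm_num, 1, by norm_num, by norm_num, by norm_num, by norm_num⟩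
  obtain ⟨j1, hj1, j2, hj2, n1, n2, n3⟩ := hex
  obtain ⟨a1, ha1, b1, c1, d1⟩ := key j1 hj1 n1
  obtain ⟨a2, ha2, b2, c2, d2⟩ := key j2 hj2 n2
  have : a1 = a2 := by omega
  subst this
  rw [d1] at d2
  simp at d2
  exact n3 d2

theorem im3 (hSEP : SepStmt) (hMMF : MmfStmt) (hCVF : CvfStmt) (hPJS : PjsStmt) : Im3Stmt := by
  intro P Q m s' e' w M Y hm F s e f a c hM hn hz hex
  have R := role hSEP hMMF hCVF hPJS P Q m s' e' w M Y hm F s e f a c hM hn hz
  obtain ⟨i0, hi0, hfi0⟩ := hex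
  obtain ⟨i, hi, hie⟩ := nm_surj e i0 hi0
  rw [hie] at hfi0
  have hall := (R i hi hfi0).1
  refine ⟨?_, ?_⟩
  · intro r hr
    obtain ⟨i1, hi1, h1⟩ := nm_surj e r hr
    rcases hn r hr with h | h
    · exfalso
      rw [h1] at h
      exact hall i1 hi1 h
    · exact h
  · intro E hE
    obtain ⟨i1, hi1, hcv⟩ := hCVF.2.1 s (E % 7) (Nat.mod_lt _ (by norm_num))
    refine (R i1 hi1 (hall i1 hi1)).2 (E % 7) (Nat.mod_lt _ (by norm_num)) hcv E ?_
    rw [mem_ci]
    exact ⟨E / 7, by omega, by omega⟩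

end Pool.Agent.MWI.H10
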