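import Pool.Agent.MWI.StmtsE

/-!
# Row THX of squad MWI: `Inc` implies `Thr`
-/

namespace Pool.Agent.MWI.H10

open Pool.Agent.Helper14_MV Pool.Agent.Helper2_MV Pool.Agent.MWF Pool.Agent.MWI

theorem filter_nz_rep (k : ℕ) : (List.replicate k 0).filter nz = [] := by
  rw [List.filter_eq_nil_iff]
  intro a ha
  rw [List.mem_replicate] at ha
  rw [ha.2]; simp [nz]

theorem iter_ee {β : FIC} {W : List ℕ} {n : ℕ} (h : RR β W (W ++ List.replicate n 0)) (l : ℕ) :
    RR β W (W ++ List.replicate (n * l) 0) := by
  induction l with
  | zero => simpa using RR.refl W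
  | succ l ih =>
    have h1 : RR β (W ++ List.replicate n 0)
        ((W ++ List.replicate (n * l) 0) ++ List.replicate n 0) := RR.append ih (RR.refl _)
    have h2 := β.trans h h1
    rw [List.append_assoc, List.replicate_append_replicate, ← Nat.mul_succ] at h2
    exact h2

theorem thx : ThxStmt := by
  intro β P Q m H
  have hQ : Q ≠ [] := by
    rintro rfl
    obtain ⟨n, hn, h1⟩ := H.ee
    obtain ⟨h, C, hp, hf, hC, hh, he⟩ := H.th _ h1
    have hCn : C = [] := by
      cases C with
      | nil => rfl
      | cons a l =>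
        have := hh a l rfl
        have hm : a ∈ (a :: l).filter nz := by
          rw [List.mem_filter]
          refine ⟨List.mem_cons_self, ?_⟩
          simp [nz, this]
        rw [hf] at hm
        simp [pr] at hm
    rw [hCn] at he
    have hl := congrArg List.length he
    have hlen := hp.length_eq
    simp [ww, zz, pr] at hl hlen
    omega
  refine ⟨hQ, ?_⟩
  rintro v ⟨a, b, hv⟩
  obtain ⟨n, hn, h1⟩ := H.ee
  have h2 := iter_ee h1 b
  obtain ⟨c, hc⟩ : ∃ c, b + c = n * b := ⟨n * b - b, by
    have : b ≤ n * b := Nat.le_mul_of_pos_left b hn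
    omega⟩
  have h3 : RR β ((v ++ List.replicate a 0) ++ List.replicate c 0)
      ((ww P Q (List.range m) ++ List.replicate b 0) ++ List.replicate c 0) :=
    RR.append hv (RR.refl _)
  rw [List.append_assoc, List.append_assoc, List.replicate_append_replicate,
    List.replicate_append_replicate, hc] at h3
  have h4 := β.trans h2 (RR.symm h3)
  obtain ⟨h, C, hp, hf, hC, hh, he⟩ := H.th _ h4
  have hCne : C ≠ [] := by
    rintro rfl
    rw [List.filter_nil] at hf
    cases Q with
    | nil => exact hQ rfl
    | cons q Q => simp [pr] at hf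
  have he' : v ++ List.replicate (a + c) 0 = (pl P ++ (0 :: (zz h ++ [0]))) ++ C := by
    rw [he]; simp
  rw [List.append_eq_append_iff] at he'
  rcases he' with ⟨a', hX, hk⟩ | ⟨c', hvX, hCc⟩
  · exfalso
    cases C with
    | nil => exact hCne rfl
    | cons x l =>
      have hx := hh x l rfl
      have hm : x ∈ List.replicate (a + c) 0 := by rw [hk]; simp
      rw [List.mem_replicate] at hm
      omega
  · refine ⟨h, c', hp, ?_, ?_, ?_, ?_⟩
    · rw [hCc, List.filter_append, filter_nz_rep, List.append_nil] at hf
      exact hf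
    · intro x hx
      exact hC x (by rw [hCc]; simp [hx])
    · intro x l hxl
      exact hh x (l ++ List.replicate (a + c) 0) (by rw [hCc, hxl]; rfl)
    · rw [hvX]; simp

end Pool.Agent.MWI.H10
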